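import Mathlib

/-!
A finite graph with at least two vertices, in which any two non-adjacent vertices have a common
neighbour and any two adjacent vertices have a common non-neighbour, contains an induced pentagon
or an induced bull.  The hypothesis holds for `k`-regular graphs with `2 k + 1` vertices.
-/

namespace Pool.Agent.Results.MP_aa43e9_co.BullOrPentagon

open Finset

/-- The bull: a triangle `0, 1, 2` with a pendant edge at `0` (to `3`) and at `1` (to `4`). -/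
def bull : SimpleGraph (Fin 5) :=
  SimpleGraph.fromEdgeSet {s(0, 1), s(1, 2), s(2, 0), s(0, 3), s(1, 4)}

/-- Some five vertices of `G` induce a pentagon or a bull. -/
def HasFive {V : Type} (G : SimpleGraph V) : Prop :=
  ∃ S : Finset V, S.card = 5 ∧
    (Nonempty (G.induce (S : Set V) ≃g SimpleGraph.cycleGraph 5) ∨
      Nonempty (G.induce (S : Set V) ≃g bull))

variable {V : Type}

/-- `a b c d e` is an induced pentagon. -/
def Pent (G : SimpleGraph V) (a b c d e : V) : Prop :=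
  G.Adj a b ∧ G.Adj b c ∧ G.Adj c d ∧ G.Adj d e ∧ G.Adj e a ∧
    ¬ G.Adj a c ∧ ¬ G.Adj a d ∧ ¬ G.Adj b d ∧ ¬ G.Adj b e ∧ ¬ G.Adj c e

/-- `a b c` is a triangle, `d` is adjacent to `a` only, `e` is adjacent to `b` only. -/
def Bull (G : SimpleGraph V) (a b c d e : V) : Prop :=
  G.Adj a b ∧ G.Adj b c ∧ G.Adj c a ∧ G.Adj d a ∧ G.Adj e b ∧
    ¬ G.Adj d b ∧ ¬ G.Adj d c ∧ ¬ G.Adj e a ∧ ¬ G.Adj e c ∧ ¬ G.Adj d e

/-- No induced pentagon and no induced bull. -/
structure Free (G : SimpleGraph V) : Prop where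
  pent : ∀ {a b c d e : V}, ¬ Pent G a b c d e
  bull : ∀ {a b c d e : V}, ¬ Bull G a b c d e

lemma Free.compl {G : SimpleGraph V} (h : Free G) : Free Gᶜ := by
  constructor
  · rintro a b c d e ⟨h1, h2, h3, h4, h5, n1, n2, n3, n4, n5⟩
    simp only [SimpleGraph.compl_adj, not_and, not_not] at h1 h2 h3 h4 h5 n1 n2 n3 n4 n5
    have ac : G.Adj a c := n1 (by rintro rfl; exact h3.2 (n2 h3.1))
    have ad : G.Adj a d := n2 (by rintro rfl; exact h3.2 ac.symm)
    have bd : G.Adj b d := n3 (by rintro rfl; exact h1.2 ad)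
    have be : G.Adj b e := n4 (by rintro rfl; exact h4.2 bd.symm)
    have ce : G.Adj c e := n5 (by rintro rfl; exact h5.2 ac.symm)
    exact h.pent (a := a) (b := c) (c := e) (d := b) (e := d)
      ⟨ac, ce, be.symm, bd, ad.symm, fun hh => h5.2 hh.symm, h1.2, fun hh => h2.2 hh.symm,
        h3.2, fun hh => h4.2 hh.symm⟩
  · rintro a b c d e ⟨h1, h2, h3, h4, h5, n1, n2, n3, n4, n5⟩
    simp only [SimpleGraph.compl_adj, not_and, not_not] at h1 h2 h3 h4 h5 n1 n2 n3 n4 n5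
    have db : G.Adj d b := n1 (by rintro rfl; exact h2.2 (n2 h2.1))
    have dc : G.Adj d c := n2 (by rintro rfl; exact h2.2 db.symm)
    have ea : G.Adj e a := n3 (by rintro rfl; exact h3.2 (n4 h3.1.symm).symm)
    have ec : G.Adj e c := n4 (by rintro rfl; exact h3.2 ea)
    have de : G.Adj d e := n5 (by rintro rfl; exact h5.2 db)
    exact h.bull (a := d) (b := e) (c := c) (d := b) (e := a)
      ⟨de, ec, dc.symm, db.symm, ea.symm, fun hh => h5.2 hh.symm, h2.2, fun hh => h4.2 hh.symm,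
        fun hh => h3.2 hh.symm, fun hh => h1.2 hh.symm⟩

/-! ### The final configuration -/

lemma final_step {G : SimpleGraph V} (hG : Free G) {E F : Finset V} {q v x : V}
    (hqF : ∀ f ∈ F, G.Adj q f) (hqE : ∀ e ∈ E, ¬ G.Adj q e)
    (hvE : ∀ e ∈ E, G.Adj v e) (hvF : ∀ f ∈ F, G.Adj v f) (hvq : ¬ G.Adj v q)
    (hxE : ∀ e ∈ E, ¬ G.Adj x e) (hxF : ∀ f ∈ F, ¬ G.Adj x f) (hxq : G.Adj x q)
    (hE : E.Nonempty) (h1 : ∀ e ∈ E, ∃ f ∈ F, G.Adj f e)
    (h2 : ∀ f ∈ F, (∃ e ∈ E, G.Adj f e) → ∃ u ∈ E, ¬ G.Adj f u) : False := by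
  classical
  obtain ⟨e0, he0⟩ := hE
  obtain ⟨f0, hf0, hfe0⟩ := h1 e0 he0
  obtain ⟨f, hf, hmax⟩ :=
    F.exists_max_image (fun f => (E.filter (fun e => G.Adj f e)).card) ⟨f0, hf0⟩
  have hpos : 0 < (E.filter (fun e => G.Adj f e)).card :=
    lt_of_lt_of_le (Finset.card_pos.2 ⟨e0, by simp [he0, hfe0]⟩) (hmax f0 hf0)
  obtain ⟨e1, he1⟩ := Finset.card_pos.1 hpos
  rw [Finset.mem_filter] at he1
  obtain ⟨u, hu, hfu⟩ := h2 f hf ⟨e1, he1⟩
  obtain ⟨f', hf', hf'u⟩ := h1 u hu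
  obtain ⟨e, he, hfe, hf'e⟩ : ∃ e ∈ E, G.Adj f e ∧ ¬ G.Adj f' e := by
    by_contra hcon
    push Not at hcon
    have hss : E.filter (fun e => G.Adj f e) ⊂ E.filter (fun e => G.Adj f' e) := by
      rw [Finset.ssubset_iff_of_subset]
      · exact ⟨u, by simp [hu, hf'u], by simp [hfu]⟩
      · intro e he
        rw [Finset.mem_filter] at he ⊢
        exact ⟨he.1, hcon e he.1 he.2⟩
    exact absurd (Finset.card_lt_card hss) (not_lt.2 (hmax f' hf'))
  have heu : G.Adj e u := by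
    by_contra hc
    exact hG.bull (a := v) (b := f) (c := e) (d := u) (e := q)
      ⟨hvF f hf, hfe, (hvE e he).symm, (hvE u hu).symm, hqF f hf, fun hh => hfu hh.symm,
        fun hh => hc hh.symm, fun hh => hvq hh.symm, hqE e he, fun hh => hqE u hu hh.symm⟩
  have hff : ¬ G.Adj f f' := by
    intro hc
    exact hG.bull (a := q) (b := f) (c := f') (d := x) (e := e)
      ⟨hqF f hf, hc, (hqF f' hf').symm, hxq, hfe.symm, hxF f hf, hxF f' hf',
        fun hh => hqE e he hh.symm, fun hh => hf'e hh.symm, hxE e he⟩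
  exact hG.pent (a := q) (b := f) (c := e) (d := u) (e := f')
    ⟨hqF f hf, hfe, heu, hf'u.symm, (hqF f' hf').symm, hqE e he, hqE u hu, hfu, hff,
      fun hh => hf'e hh.symm⟩

/-! ### Pairs of sets -/

/-- The situation of the main lemma. -/
structure Cfg (G : SimpleGraph V) (A B : Finset V) (v x : V) : Prop where
  free : Free G
  vB : ∀ b ∈ B, G.Adj v b
  vA : ∀ a ∈ A, ¬ G.Adj v a
  vnA : v ∉ A
  xA : ∀ a ∈ A, G.Adj x a
  xB : ∀ b ∈ B, ¬ G.Adj x b
  xnB : x ∉ B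
  h1 : ∀ a ∈ A, ∀ b ∈ B, ¬ G.Adj a b → ∃ w, (w ∈ A ∨ w ∈ B) ∧ G.Adj w a ∧ G.Adj w b
  h2 : ∀ a ∈ A, ∀ b ∈ B, G.Adj a b →
    ∃ w, (w ∈ A ∨ w ∈ B) ∧ w ≠ a ∧ w ≠ b ∧ ¬ G.Adj w a ∧ ¬ G.Adj w b
  nA : A.Nonempty
  nB : B.Nonempty

lemma Cfg.ne {G : SimpleGraph V} {A B : Finset V} {v x : V} (h : Cfg G A B v x) {a b : V}
    (ha : a ∈ A) (hb : b ∈ B) : a ≠ b := by
  rintro rfl
  exact h.vA a ha (h.vB a hb)

lemma Cfg.compl {G : SimpleGraph V} {A B : Finset V} {v x : V} (h : Cfg G A B v x) :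
    Cfg Gᶜ A B x v where
  free := h.free.compl
  vB b hb := (SimpleGraph.compl_adj _ _ _).2 ⟨fun hh => h.xnB (hh ▸ hb), h.xB b hb⟩
  vA a ha hh := ((SimpleGraph.compl_adj _ _ _).1 hh).2 (h.xA a ha)
  vnA hh := G.loopless.irrefl x (h.xA x hh)
  xA a ha := (SimpleGraph.compl_adj _ _ _).2 ⟨fun hh => h.vnA (hh ▸ ha), h.vA a ha⟩
  xB b hb hh := ((SimpleGraph.compl_adj _ _ _).1 hh).2 (h.vB b hb)
  xnB hh := G.loopless.irrefl v (h.vB v hh)
  h1 a ha b hb hab := by
    have hab' : G.Adj a b := by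
      by_contra hc
      exact hab ((SimpleGraph.compl_adj _ _ _).2 ⟨h.ne ha hb, hc⟩)
    obtain ⟨w, hw, h3, h4, h5, h6⟩ := h.h2 a ha b hb hab'
    exact ⟨w, hw, (SimpleGraph.compl_adj _ _ _).2 ⟨h3, h5⟩,
      (SimpleGraph.compl_adj _ _ _).2 ⟨h4, h6⟩⟩
  h2 a ha b hb hab := by
    obtain ⟨w, hw, h3, h4⟩ := h.h1 a ha b hb ((SimpleGraph.compl_adj _ _ _).1 hab).2
    exact ⟨w, hw, h3.ne, h4.ne, fun hh => ((SimpleGraph.compl_adj _ _ _).1 hh).2 h3,
      fun hh => ((SimpleGraph.compl_adj _ _ _).1 hh).2 h4⟩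
  nA := h.nA
  nB := h.nB

section facts

variable {G : SimpleGraph V} {A B : Finset V} {v x : V}

lemma Cfg.f16 (h : Cfg G A B v x) {b a1 a2 a3 : V} (hb : b ∈ B) (h1 : a1 ∈ A) (h2 : a2 ∈ A)
    (h3 : a3 ∈ A) (h12 : G.Adj a1 a2) (h1b : G.Adj a1 b) (h2b : G.Adj a2 b) (h3b : ¬ G.Adj a3 b)
    (h31 : G.Adj a3 a1) : G.Adj a3 a2 := by
  by_contra hc
  exact h.free.bull (a := a1) (b := b) (c := a2) (d := a3) (e := v)
    ⟨h1b, h2b.symm, h12.symm, h31, h.vB b hb, h3b, hc, h.vA a1 h1, h.vA a2 h2,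
      fun hh => h.vA a3 h3 hh.symm⟩

lemma Cfg.f19 (h : Cfg G A B v x) {b a1 a2 a3 : V} (hb : b ∈ B) (h1 : a1 ∈ A) (h2 : a2 ∈ A)
    (h3 : a3 ∈ A) (h12 : ¬ G.Adj a1 a2) (h1b : ¬ G.Adj a1 b) (h2b : ¬ G.Adj a2 b)
    (h3b : G.Adj a3 b) (h31 : G.Adj a3 a1) : G.Adj a3 a2 := by
  by_contra hc
  exact h.free.bull (a := x) (b := a3) (c := a1) (d := a2) (e := b)
    ⟨h.xA a3 h3, h31, (h.xA a1 h1).symm, (h.xA a2 h2).symm, h3b.symm, fun hh => hc hh.symm,
      fun hh => h12 hh.symm, fun hh => h.xB b hb hh.symm, fun hh => h1b hh.symm, h2b⟩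

lemma Cfg.fR (h : Cfg G A B v x) {p q e f : V} (hp : p ∈ A) (hq : q ∈ A) (he : e ∈ B)
    (hf : f ∈ B) (hpe : G.Adj p e) (hqf : G.Adj q f) (hpf : ¬ G.Adj p f) (hqe : ¬ G.Adj q e)
    (hef : G.Adj e f) : G.Adj p q := by
  by_contra hc
  exact h.free.bull (a := e) (b := f) (c := v) (d := p) (e := q)
    ⟨hef, (h.vB f hf).symm, h.vB e he, hpe, hqf, hpf, fun hh => h.vA p hp hh.symm, hqe,
      fun hh => h.vA q hq hh.symm, hc⟩

/-- `b` is mixed on `K`. -/
def Mixed (G : SimpleGraph V) (b : V) (K : Finset V) : Prop :=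
  (∃ k ∈ K, G.Adj k b) ∧ ∃ k ∈ K, ¬ G.Adj k b

/-- The sets in which we look for a minimal one. -/
def Phi (G : SimpleGraph V) (A B K : Finset V) : Prop :=
  K ⊆ A ∧ (∃ b ∈ B, Mixed G b K) ∧
    ∀ b ∈ B, Mixed G b K → ∀ a ∈ A, a ∉ K → ∀ k ∈ K, (G.Adj a b ↔ ¬ G.Adj a k)

lemma Cfg.mixed_compl (h : Cfg G A B v x) {b : V} (hb : b ∈ B) {K : Finset V} (hK : K ⊆ A) :
    Mixed Gᶜ b K ↔ Mixed G b K := by
  constructor
  · rintro ⟨⟨k, hk, hkb⟩, k', hk', hkb'⟩
    refine ⟨⟨k', hk', ?_⟩, k, hk, ((SimpleGraph.compl_adj _ _ _).1 hkb).2⟩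
    by_contra hc
    exact hkb' ((SimpleGraph.compl_adj _ _ _).2 ⟨h.ne (hK hk') hb, hc⟩)
  · rintro ⟨⟨k, hk, hkb⟩, k', hk', hkb'⟩
    exact ⟨⟨k', hk', (SimpleGraph.compl_adj _ _ _).2 ⟨h.ne (hK hk') hb, hkb'⟩⟩, k, hk,
      fun hh => ((SimpleGraph.compl_adj _ _ _).1 hh).2 hkb⟩

lemma Cfg.phi_compl (h : Cfg G A B v x) {K : Finset V} (hK : Phi G A B K) : Phi Gᶜ A B K := by
  obtain ⟨h1, ⟨b, hb, hbK⟩, h3⟩ := hK
  refine ⟨h1, ⟨b, hb, (h.mixed_compl hb h1).2 hbK⟩, ?_⟩
  intro b' hb' hm a ha haK k hk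
  have h4 := h3 b' hb' ((h.mixed_compl hb' h1).1 hm) a ha haK k hk
  have h5 : a ≠ k := by
    rintro rfl
    exact haK hk
  rw [SimpleGraph.compl_adj, SimpleGraph.compl_adj, h4]
  have h6 := h.ne ha hb'
  tauto

/-- A set on which some vertex of `B` is mixed is disconnected or its complement is. -/
lemma Cfg.disc (h : Cfg G A B v x) {K : Finset V} (hK : K ⊆ A) {b : V} (hb : b ∈ B)
    (hm : Mixed G b K) :
    (∃ S ⊆ K, S.Nonempty ∧ S ≠ K ∧ ∀ s ∈ S, ∀ t ∈ K, t ∉ S → ¬ G.Adj s t) ∨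
    ∃ D ⊆ K, D.Nonempty ∧ D ≠ K ∧ ∀ s ∈ D, ∀ t ∈ K, t ∉ D → G.Adj s t := by
  classical
  obtain ⟨⟨k, hk, hkb⟩, k', hk', hkb'⟩ := hm
  by_cases hS : ∃ s ∈ K, G.Adj s b ∧ ∀ t ∈ K, ¬ G.Adj t b → ¬ G.Adj s t
  · left
    refine ⟨K.filter (fun s => G.Adj s b ∧ ∀ t ∈ K, ¬ G.Adj t b → ¬ G.Adj s t),
      Finset.filter_subset _ _, ?_, ?_, ?_⟩
    · obtain ⟨s, hs, hs1⟩ := hS
      exact ⟨s, Finset.mem_filter.2 ⟨hs, hs1⟩⟩
    · intro hh
      rw [← hh, Finset.mem_filter] at hk'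
      exact hkb' hk'.2.1
    · intro s hs t ht htS hst
      rw [Finset.mem_filter] at hs
      obtain ⟨hsK, hsb, hs2⟩ := hs
      have htb : G.Adj t b := by
        by_contra hc
        exact hs2 t ht hc hst
      apply htS
      rw [Finset.mem_filter]
      refine ⟨ht, htb, ?_⟩
      intro r hr hrb htr
      exact hs2 r hr hrb (h.f16 hb (hK ht) (hK hsK) (hK hr) hst.symm htb hsb hrb htr.symm).symm
  · right
    push Not at hS
    obtain ⟨q, hq, hmax⟩ := (K.filter (fun t => ¬ G.Adj t b)).exists_max_image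
      (fun t => ((K.filter (fun s => G.Adj s b)).filter (fun s => G.Adj t s)).card)
      ⟨k', by simp [hk', hkb']⟩
    rw [Finset.mem_filter] at hq
    have hqD : ∀ p ∈ K, G.Adj p b → G.Adj q p := by
      intro p' hp' hp'b
      by_contra hqp'
      obtain ⟨q', hq', hq'b, hpq'⟩ := hS p' hp' hp'b
      obtain ⟨p, hp, hpb, hqp, hq'p⟩ : ∃ p ∈ K, G.Adj p b ∧ G.Adj q p ∧ ¬ G.Adj q' p := by
        by_contra hcon
        push Not at hcon
        have hss : (K.filter (fun s => G.Adj s b)).filter (fun s => G.Adj q s) ⊂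
            (K.filter (fun s => G.Adj s b)).filter (fun s => G.Adj q' s) := by
          rw [Finset.ssubset_iff_of_subset]
          · exact ⟨p', by simp [hp', hp'b, hpq'.symm], by simp [hqp']⟩
          · intro s hs
            simp only [Finset.mem_filter] at hs ⊢
            exact ⟨hs.1, hcon s hs.1.1 hs.1.2 hs.2⟩
        exact absurd (Finset.card_lt_card hss)
          (not_lt.2 (hmax q' (Finset.mem_filter.2 ⟨hq', hq'b⟩)))
      have hpp : ¬ G.Adj p p' := fun hc =>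
        hqp' (h.f16 hb (hK hp) (hK hp') (hK hq.1) hc hpb hp'b hq.2 hqp)
      have hqq : G.Adj q q' := by
        by_contra hc
        exact hq'p (h.f19 hb (hK hq.1) (hK hq') (hK hp) hc hq.2 hq'b hpb hqp.symm).symm
      exact h.free.pent (a := b) (b := p) (c := q) (d := q') (e := p')
        ⟨hpb.symm, hqp.symm, hqq, hpq'.symm, hp'b, fun hh => hq.2 hh.symm,
          fun hh => hq'b hh.symm, fun hh => hq'p hh.symm, hpp, hqp'⟩
    refine ⟨K.filter (fun t => ¬ G.Adj t b ∧ ∀ p ∈ K, G.Adj p b → G.Adj t p),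
      Finset.filter_subset _ _, ⟨q, Finset.mem_filter.2 ⟨hq.1, hq.2, hqD⟩⟩, ?_, ?_⟩
    · intro hh
      rw [← hh, Finset.mem_filter] at hk
      exact hk.2.1 hkb
    · intro d hd t ht htD
      rw [Finset.mem_filter] at hd
      obtain ⟨hdK, hdb, hd2⟩ := hd
      by_cases htb : G.Adj t b
      · exact hd2 t ht htb
      · have : ∃ p ∈ K, G.Adj p b ∧ ¬ G.Adj t p := by
          by_contra hcon
          push Not at hcon
          exact htD (Finset.mem_filter.2 ⟨ht, htb, hcon⟩)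
        obtain ⟨p, hp, hpb, htp⟩ := this
        by_contra hdt
        exact htp (h.f19 hb (hK hdK) (hK ht) (hK hp) hdt hdb htb hpb (hd2 p hp hpb).symm).symm

/-- The main case. -/
lemma Cfg.main (h : Cfg G A B v x) {K : Finset V} (hK : Phi G A B K)
    (hmin : ∀ K' ⊂ K, ¬ Phi G A B K')
    (hS : ∃ S ⊆ K, S.Nonempty ∧ S ≠ K ∧ ∀ s ∈ S, ∀ t ∈ K, t ∉ S → ¬ G.Adj s t) : False := by
  classical
  obtain ⟨hKA, ⟨b0, hb0, hb0K⟩, hPhi⟩ := hK
  -- vertices of `B` are not mixed on components of `K`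
  have hM1 : ∀ b ∈ B, Mixed G b K → ∀ p ∈ K, G.Adj p b → ∀ q ∈ K, ¬ G.Adj q b →
      ¬ G.Adj p q := by
    intro b hb hbK p hp hpb q hq hqb hpq
    obtain ⟨S, hSK, ⟨s0, hs0⟩, hSne, hSsep⟩ := hS
    -- the family of closed sets containing `p`
    let fam : Finset (Finset V) := K.powerset.filter
      (fun T => p ∈ T ∧ ∀ s ∈ T, ∀ t ∈ K, t ∉ T → ¬ G.Adj s t)
    have hfam : ∀ T, T ∈ fam ↔ T ⊆ K ∧ p ∈ T ∧ ∀ s ∈ T, ∀ t ∈ K, t ∉ T → ¬ G.Adj s t := by
      intro T
      simp [fam]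
    have hKfam : K ∈ fam := (hfam K).2 ⟨subset_rfl, hp, fun s _ t ht htK => absurd ht htK⟩
    obtain ⟨T, hT, hTmin⟩ := fam.exists_min_image (fun T => T.card) ⟨K, hKfam⟩
    rw [hfam] at hT
    obtain ⟨hTK, hpT, hTsep⟩ := hT
    have hTss : T ⊂ K := by
      have hsm : ∃ T' ∈ fam, T'.card < K.card := by
        by_cases hpS : p ∈ S
        · exact ⟨S, (hfam S).2 ⟨hSK, hpS, hSsep⟩,
            Finset.card_lt_card (Finset.ssubset_iff_subset_ne.2 ⟨hSK, hSne⟩)⟩
        · refine ⟨K \ S, (hfam _).2 ⟨Finset.sdiff_subset, by simp [hp, hpS], ?_⟩, ?_⟩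
          · intro s hs t ht htn
            rw [Finset.mem_sdiff] at hs
            have htS : t ∈ S := by
              by_contra hc
              exact htn (Finset.mem_sdiff.2 ⟨ht, hc⟩)
            exact fun hh => hSsep t htS s hs.1 hs.2 hh.symm
          · apply Finset.card_lt_card
            rw [Finset.ssubset_iff_of_subset Finset.sdiff_subset]
            exact ⟨s0, hSK hs0, by simp [hs0]⟩
      obtain ⟨T', hT', hlt⟩ := hsm
      refine Finset.ssubset_iff_subset_ne.2 ⟨hTK, ?_⟩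
      rintro rfl
      exact absurd (hTmin T' hT') (not_le.2 hlt)
    have hqT : q ∈ T := by
      by_contra hc
      exact hTsep p hpT q hq hc hpq
    apply hmin T hTss
    refine ⟨hTK.trans hKA, ⟨b, hb, ⟨p, hpT, hpb⟩, q, hqT, hqb⟩, ?_⟩
    intro b' hb' hbT a ha haT k hk
    have hb'K : Mixed G b' K := by
      obtain ⟨⟨k1, hk1, hk1'⟩, k2, hk2, hk2'⟩ := hbT
      exact ⟨⟨k1, hTK hk1, hk1'⟩, k2, hTK hk2, hk2'⟩
    by_cases haK : a ∈ K
    · have hak : ∀ k ∈ T, ¬ G.Adj a k := fun k hk hh => hTsep k hk a haK haT hh.symm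
      have hab : G.Adj a b' := by
        obtain ⟨p', hp', q', hq', hpb', hqb', hpq'⟩ : ∃ p' ∈ T, ∃ q' ∈ T, G.Adj p' b' ∧
            ¬ G.Adj q' b' ∧ G.Adj p' q' := by
          by_contra hcon
          push Not at hcon
          obtain ⟨⟨k1, hk1, hk1'⟩, k2, hk2, hk2'⟩ := hbT
          by_cases hpb' : G.Adj p b'
          · have hmem : T.filter (fun t => G.Adj t b') ∈ fam := by
              rw [hfam]
              refine ⟨(Finset.filter_subset _ _).trans hTK, by simp [hpT, hpb'], ?_⟩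
              intro s hs t ht htn hst
              rw [Finset.mem_filter] at hs
              by_cases htT : t ∈ T
              · have htb : ¬ G.Adj t b' := fun hh => htn (Finset.mem_filter.2 ⟨htT, hh⟩)
                exact hcon s hs.1 t htT hs.2 htb hst
              · exact hTsep s hs.1 t ht htT hst
            have hlt : (T.filter (fun t => G.Adj t b')).card < T.card := by
              apply Finset.card_lt_card
              rw [Finset.ssubset_iff_of_subset (Finset.filter_subset _ _)]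
              exact ⟨k2, hk2, by simp [hk2']⟩
            exact absurd (hTmin _ hmem) (not_le.2 hlt)
          · have hmem : T.filter (fun t => ¬ G.Adj t b') ∈ fam := by
              rw [hfam]
              refine ⟨(Finset.filter_subset _ _).trans hTK, by simp [hpT, hpb'], ?_⟩
              intro s hs t ht htn hst
              rw [Finset.mem_filter] at hs
              by_cases htT : t ∈ T
              · have htb : G.Adj t b' := by
                  by_contra hh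
                  exact htn (Finset.mem_filter.2 ⟨htT, hh⟩)
                exact hcon t htT s hs.1 htb hs.2 hst.symm
              · exact hTsep s hs.1 t ht htT hst
            have hlt : (T.filter (fun t => ¬ G.Adj t b')).card < T.card := by
              apply Finset.card_lt_card
              rw [Finset.ssubset_iff_of_subset (Finset.filter_subset _ _)]
              exact ⟨k1, hk1, by simp [hk1']⟩
            exact absurd (hTmin _ hmem) (not_le.2 hlt)
        by_contra hc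
        exact hak p' hp' (h.f19 hb' (hKA (hTK hq')) ha (hKA (hTK hp'))
          (fun hh => hak q' hq' hh.symm) hqb' hc hpb' hpq').symm
      exact ⟨fun _ => hak k hk, fun _ => hab⟩
    · exact hPhi b' hb' hb'K a ha haK k (hTK hk)
  -- the vertex `e` with most neighbours in `K`
  obtain ⟨e, he, hemax⟩ := (B.filter (fun b => Mixed G b K)).exists_max_image
    (fun b => (K.filter (fun k => G.Adj k b)).card) ⟨b0, by simp [hb0, hb0K]⟩
  rw [Finset.mem_filter] at he
  obtain ⟨heB, heK⟩ := he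
  obtain ⟨⟨p0, hp0, hp0e⟩, q, hq, hqe⟩ := heK
  have heK : Mixed G e K := ⟨⟨p0, hp0, hp0e⟩, q, hq, hqe⟩
  -- a vertex of `B` with at least as many neighbours which is not complete to `K`
  have hmaxuse : ∀ w ∈ B, (∃ k ∈ K, ¬ G.Adj k w) → (∀ k ∈ K, G.Adj k e → G.Adj k w) →
      ∀ k ∈ K, (G.Adj k w ↔ G.Adj k e) := by
    intro w hw hw1 hw2
    have hwm : Mixed G w K := ⟨⟨p0, hp0, hw2 p0 hp0 hp0e⟩, hw1⟩
    have hle := hemax w (Finset.mem_filter.2 ⟨hw, hwm⟩)
    have hsub : K.filter (fun k => G.Adj k e) ⊆ K.filter (fun k => G.Adj k w) := by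
      intro k hk
      rw [Finset.mem_filter] at hk ⊢
      exact ⟨hk.1, hw2 k hk.1 hk.2⟩
    have heq := Finset.eq_of_subset_of_card_le hsub hle
    intro k hk
    constructor
    · intro hh
      have : k ∈ K.filter (fun k => G.Adj k e) := by
        rw [heq]
        exact Finset.mem_filter.2 ⟨hk, hh⟩
      exact (Finset.mem_filter.1 this).2
    · exact hw2 k hk
  let E : Finset V := B.filter (fun b => ∀ k ∈ K, (G.Adj k b ↔ G.Adj k e))
  let F : Finset V := B.filter (fun f => (∀ k ∈ K, G.Adj k f) ∧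
    ∀ a ∈ A, a ∉ K → G.Adj a e → G.Adj a f)
  have hE : ∀ b, b ∈ E ↔ b ∈ B ∧ ∀ k ∈ K, (G.Adj k b ↔ G.Adj k e) := by
    intro b
    simp [E]
  have hF : ∀ f, f ∈ F ↔ f ∈ B ∧ (∀ k ∈ K, G.Adj k f) ∧
      ∀ a ∈ A, a ∉ K → G.Adj a e → G.Adj a f := by
    intro f
    simp [F]
  have hEm : ∀ b ∈ E, Mixed G b K := by
    intro b hb
    rw [hE] at hb
    exact ⟨⟨p0, hp0, (hb.2 p0 hp0).2 hp0e⟩, q, hq, fun hh => hqe ((hb.2 q hq).1 hh)⟩
  have hqE : ∀ b ∈ E, ¬ G.Adj q b := by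
    intro b hb hh
    rw [hE] at hb
    exact hqe ((hb.2 q hq).1 hh)
  apply final_step h.free (E := E) (F := F) (q := q) (v := v) (x := x)
  · intro f hf
    exact ((hF f).1 hf).2.1 q hq
  · exact hqE
  · intro b hb
    exact h.vB b ((hE b).1 hb).1
  · intro f hf
    exact h.vB f ((hF f).1 hf).1
  · exact h.vA q (hKA hq)
  · intro b hb
    exact h.xB b ((hE b).1 hb).1
  · intro f hf
    exact h.xB f ((hF f).1 hf).1
  · exact h.xA q (hKA hq)
  · exact ⟨e, (hE e).2 ⟨heB, fun k _ => Iff.rfl⟩⟩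
  · intro e' he'
    have he'B := ((hE e').1 he').1
    have he'K := ((hE e').1 he').2
    have he'm := hEm e' he'
    have hqe' := hqE e' he'
    obtain ⟨w, hw, hwq, hwe⟩ := h.h1 q (hKA hq) e' he'B hqe'
    have hwB : w ∈ B := by
      rcases hw with hw | hw
      · exfalso
        by_cases hwK : w ∈ K
        · exact hM1 e' he'B he'm w hwK hwe q hq hqe' hwq
        · exact (hPhi e' he'B he'm w hw hwK q hq).1 hwe hwq
      · exact hw
    have hwp : ∀ p ∈ K, G.Adj p e' → G.Adj p w := by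
      intro p hp hpe
      by_contra hpw
      exact hM1 e' he'B he'm p hp hpe q hq hqe' (h.fR (hKA hp) (hKA hq) he'B hwB hpe hwq.symm hpw
        hqe' hwe.symm)
    refine ⟨w, (hF w).2 ⟨hwB, ?_, ?_⟩, hwe⟩
    · intro k hk
      by_contra hkw
      exact hqe ((hmaxuse w hwB ⟨k, hk, hkw⟩ (fun p hp hpe => hwp p hp ((he'K p hp).2 hpe)) q
        hq).1 hwq.symm)
    · intro a ha haK hae
      have h3 := (hPhi e heB heK a ha haK q hq).1 hae
      have h4 := (hPhi e' he'B he'm a ha haK q hq).2 h3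
      by_contra haw
      exact h3 (h.fR ha (hKA hq) he'B hwB h4 hwq.symm haw hqe' hwe.symm)
  · rintro f hf ⟨e', he', hfe'⟩
    have he'B := ((hE e').1 he').1
    have he'K := ((hE e').1 he').2
    have he'm := hEm e' he'
    have hqe' := hqE e' he'
    obtain ⟨hfB, hfK, hfA⟩ := (hF f).1 hf
    obtain ⟨w, hw, hwq, hwf, nwq, nwf⟩ := h.h2 q (hKA hq) f hfB (hfK q hq)
    have hwB : w ∈ B := by
      rcases hw with hw | hw
      · exfalso
        by_cases hwK : w ∈ K
        · exact nwf (hfK w hwK)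
        · exact nwf (hfA w hw hwK ((hPhi e heB heK w hw hwK q hq).2 nwq))
      · exact hw
    have hwe' : G.Adj w e' := by
      by_contra hc
      exact h.free.bull (a := v) (b := f) (c := e') (d := w) (e := q)
        ⟨h.vB f hfB, hfe', (h.vB e' he'B).symm, (h.vB w hwB).symm, hfK q hq, nwf, hc,
          fun hh => h.vA q (hKA hq) hh.symm, hqe', nwq⟩
    have hwp : ∀ p ∈ K, G.Adj p e → G.Adj p w := by
      intro p hp hpe
      have hpe' := (he'K p hp).2 hpe
      by_contra hpw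
      exact h.free.bull (a := e') (b := f) (c := p) (d := w) (e := q)
        ⟨hfe'.symm, (hfK p hp).symm, hpe', hwe', hfK q hq, nwf, fun hh => hpw hh.symm, hqe',
          fun hh => hM1 e heB heK p hp hpe q hq hqe hh.symm, nwq⟩
    refine ⟨w, (hE w).2 ⟨hwB, hmaxuse w hwB ⟨q, hq, fun hh => nwq hh.symm⟩ hwp⟩, ?_⟩
    exact fun hh => nwf hh.symm

/-- The main lemma. -/
lemma Cfg.contra (h : Cfg G A B v x) : False := by
  classical
  by_cases hmix : ∃ b ∈ B, Mixed G b A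
  · -- a minimal set
    let fam : Finset (Finset V) := A.powerset.filter (fun K => Phi G A B K)
    have hA : A ∈ fam := by
      simp only [fam, Finset.mem_filter, Finset.mem_powerset, subset_rfl, true_and]
      exact ⟨subset_rfl, hmix, fun b _ _ a ha haA => absurd ha haA⟩
    obtain ⟨K, hK, hKmin⟩ := fam.exists_min_image (fun K => K.card) ⟨A, hA⟩
    simp only [fam, Finset.mem_filter, Finset.mem_powerset] at hK
    have hmin : ∀ K' ⊂ K, ¬ Phi G A B K' := by
      intro K' hK' hphi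
      have := hKmin K' (by
        simp only [fam, Finset.mem_filter, Finset.mem_powerset]
        exact ⟨hphi.1, hphi⟩)
      exact Nat.not_lt.2 this (Finset.card_lt_card hK')
    obtain ⟨b, hb, hbm⟩ := hK.2.2.1
    rcases h.disc hK.1 hb hbm with hS | ⟨D, hDK, hD1, hD2, hD3⟩
    · exact h.main hK.2 hmin hS
    · refine h.compl.main (h.phi_compl hK.2) ?_ ⟨D, hDK, hD1, hD2, ?_⟩
      · intro K' hK' hphi
        apply hmin K' hK'
        have := h.compl.phi_compl hphi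
        rwa [compl_compl] at this
      · intro s hs t ht htD hh
        exact ((SimpleGraph.compl_adj _ _ _).1 hh).2 (hD3 s hs t ht htD)
  · -- no mixed vertices
    have hnm : ∀ b ∈ B, ∀ a ∈ A, ∀ a' ∈ A, G.Adj a b → G.Adj a' b := by
      intro b hb a ha a' ha' hab
      by_contra hc
      exact hmix ⟨b, hb, ⟨a, ha, hab⟩, a', ha', hc⟩
    obtain ⟨q, hq⟩ := h.nA
    have hF2 : ∀ f ∈ B, G.Adj q f → ∃ u ∈ B, ¬ G.Adj q u ∧ ¬ G.Adj f u := by
      intro f hf hqf
      obtain ⟨w, hw, -, -, nwq, nwf⟩ := h.h2 q hq f hf hqf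
      rcases hw with hw | hw
      · exact absurd (hnm f hf q hq w hw hqf) nwf
      · exact ⟨w, hw, fun hh => nwq hh.symm, fun hh => nwf hh.symm⟩
    apply final_step h.free (E := B.filter (fun b => ¬ G.Adj q b))
      (F := B.filter (fun b => G.Adj q b)) (q := q) (v := v) (x := x)
    · intro f hf
      exact (Finset.mem_filter.1 hf).2
    · intro e he
      exact (Finset.mem_filter.1 he).2
    · intro e he
      exact h.vB e (Finset.mem_filter.1 he).1
    · intro f hf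
      exact h.vB f (Finset.mem_filter.1 hf).1
    · exact h.vA q hq
    · intro e he
      exact h.xB e (Finset.mem_filter.1 he).1
    · intro f hf
      exact h.xB f (Finset.mem_filter.1 hf).1
    · exact h.xA q hq
    · obtain ⟨b, hb⟩ := h.nB
      by_cases hqb : G.Adj q b
      · obtain ⟨u, hu, hqu, -⟩ := hF2 b hb hqb
        exact ⟨u, Finset.mem_filter.2 ⟨hu, hqu⟩⟩
      · exact ⟨b, Finset.mem_filter.2 ⟨hb, hqb⟩⟩
    · intro e he
      rw [Finset.mem_filter] at he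
      obtain ⟨w, hw, hwq, hwe⟩ := h.h1 q hq e he.1 he.2
      rcases hw with hw | hw
      · exact absurd (hnm e he.1 w hw q hq hwe) he.2
      · exact ⟨w, Finset.mem_filter.2 ⟨hw, hwq.symm⟩, hwe⟩
    · rintro f hf -
      rw [Finset.mem_filter] at hf
      obtain ⟨u, hu, hqu, hfu⟩ := hF2 f hf.1 hf.2
      exact ⟨u, Finset.mem_filter.2 ⟨hu, hqu⟩, hfu⟩

end facts

/-! ### Two non-adjacent vertices with a unique common neighbour -/

/-- `v` is the unique common neighbour of the non-adjacent vertices `x` and `y`. -/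
structure Setup (G : SimpleGraph V) (x y v : V) : Prop where
  free : Free G
  t1 : ∀ u w, u ≠ w → ¬ G.Adj u w → ∃ z, G.Adj z u ∧ G.Adj z w
  t2 : ∀ u w, G.Adj u w → ∃ z, z ≠ u ∧ z ≠ w ∧ ¬ G.Adj z u ∧ ¬ G.Adj z w
  xv : G.Adj x v
  yv : G.Adj y v
  ne : x ≠ y
  xy : ¬ G.Adj x y
  uniq : ∀ w, G.Adj w x → G.Adj w y → w = v

section setup

variable {G : SimpleGraph V} {x y v : V}

lemma Setup.symm (h : Setup G x y v) : Setup G y x v where
  free := h.free
  t1 := h.t1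
  t2 := h.t2
  xv := h.yv
  yv := h.xv
  ne := h.ne.symm
  xy := fun hh => h.xy hh.symm
  uniq := fun w h1 h2 => h.uniq w h2 h1

/-- neighbours of `x` that are not `v` are not adjacent to `y` -/
lemma Setup.ny (h : Setup G x y v) {p : V} (hp : G.Adj p x) (hpv : p ≠ v) : ¬ G.Adj y p :=
  fun hh => hpv (h.uniq p hp hh.symm)

lemma Setup.s1 (h : Setup G x y v) {p0 p1 : V} (h0x : G.Adj p0 x) (h0v : ¬ G.Adj p0 v)
    (h0n : p0 ≠ v) (h1x : G.Adj p1 x) (h1v : G.Adj p1 v) : G.Adj p0 p1 := by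
  by_contra hc
  exact h.free.bull (a := v) (b := x) (c := p1) (d := y) (e := p0)
    ⟨h.xv.symm, h1x.symm, h1v, h.yv, h0x, fun hh => h.xy hh.symm, h.ny h1x h1v.ne, h0v, hc,
      h.ny h0x h0n⟩

lemma Setup.s2 (h : Setup G x y v) {z p1 : V} (hzx : ¬ G.Adj z x) (hzy : ¬ G.Adj z y)
    (hzv : ¬ G.Adj z v) (h1x : G.Adj p1 x) (h1v : G.Adj p1 v) : ¬ G.Adj z p1 := by
  intro hc
  exact h.free.bull (a := v) (b := p1) (c := x) (d := y) (e := z)
    ⟨h1v.symm, h1x, h.xv, h.yv, hc, h.ny h1x h1v.ne, fun hh => h.xy hh.symm, hzv, hzx,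
      fun hh => hzy hh.symm⟩

lemma Setup.s3 (h : Setup G x y v) {p0 q0 : V} (h0x : G.Adj p0 x) (h0v : ¬ G.Adj p0 v)
    (h0n : p0 ≠ v) (hqy : G.Adj q0 y) (hqv : ¬ G.Adj q0 v) (hqn : q0 ≠ v) : ¬ G.Adj p0 q0 := by
  intro hc
  exact h.free.pent (a := v) (b := x) (c := p0) (d := q0) (e := y)
    ⟨h.xv.symm, h0x.symm, hc, hqy, h.yv, fun hh => h0v hh.symm, fun hh => hqv hh.symm,
      h.symm.ny hqy hqn, h.xy, fun hh => h.ny h0x h0n hh.symm⟩

lemma Setup.s4 (h : Setup G x y v) {q0 : V} (hqy : G.Adj q0 y) (hqv : ¬ G.Adj q0 v)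
    (hqn : q0 ≠ v) : ∃ p1, G.Adj p1 x ∧ G.Adj p1 v ∧ G.Adj p1 q0 := by
  have hne : x ≠ q0 := by
    rintro rfl
    exact h.xy hqy
  obtain ⟨w, hwx, hwq⟩ := h.t1 x q0 hne (h.symm.ny hqy hqn)
  by_cases hwv : G.Adj w v
  · exact ⟨w, hwx, hwv, hwq⟩
  · exfalso
    have hwn : w ≠ v := by
      rintro rfl
      exact hqv hwq.symm
    exact h.s3 hwx hwv hwn hqy hqv hqn hwq

lemma Setup.s5 (h : Setup G x y v) {z : V} (hzx : ¬ G.Adj z x) (hzy : ¬ G.Adj z y)
    (hzv : ¬ G.Adj z v) : ∃ p0, G.Adj p0 x ∧ ¬ G.Adj p0 v ∧ p0 ≠ v ∧ G.Adj p0 z := by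
  have hne : x ≠ z := by
    rintro rfl
    exact hzv h.xv
  obtain ⟨w, hwx, hwz⟩ := h.t1 x z hne (fun hh => hzx hh.symm)
  refine ⟨w, hwx, ?_, ?_, hwz⟩
  · intro hwv
    exact h.s2 hzx hzy hzv hwx hwv hwz.symm
  · rintro rfl
    exact hzv hwz.symm

lemma Setup.s8c (h : Setup G x y v) {z q0 : V} (hzx : ¬ G.Adj z x) (hzy : ¬ G.Adj z y)
    (hzv : ¬ G.Adj z v) (hqy : G.Adj q0 y) (hqv : ¬ G.Adj q0 v) (hqn : q0 ≠ v) :
    G.Adj z q0 := by
  obtain ⟨p1, h1x, h1v, h1q⟩ := h.s4 hqy hqv hqn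
  obtain ⟨p0, h0x, h0v, h0n, h0z⟩ := h.s5 hzx hzy hzv
  by_contra hc
  exact h.free.bull (a := p0) (b := p1) (c := x) (d := z) (e := q0)
    ⟨h.s1 h0x h0v h0n h1x h1v, h1x, h0x.symm, h0z.symm, h1q.symm,
      h.s2 hzx hzy hzv h1x h1v, hzx, fun hh => h.s3 h0x h0v h0n hqy hqv hqn hh.symm,
      fun hh => h.symm.ny hqy hqn hh.symm, hc⟩

lemma Setup.s8e (h : Setup G x y v) {z z1 p0 : V} (hzx : ¬ G.Adj z x) (hzy : ¬ G.Adj z y)
    (hzv : ¬ G.Adj z v) (h1v : G.Adj z1 v) (h1x : ¬ G.Adj z1 x) (h1z : G.Adj z1 z)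
    (h0x : G.Adj p0 x) (h0v : ¬ G.Adj p0 v) (h0n : p0 ≠ v) : G.Adj z1 p0 := by
  by_contra hc
  exact h.free.pent (a := v) (b := x) (c := p0) (d := z) (e := z1)
    ⟨h.xv.symm, h0x.symm, (h.symm.s8c hzy hzx hzv h0x h0v h0n).symm, h1z.symm, h1v,
      fun hh => h0v hh.symm, fun hh => hzv hh.symm, fun hh => hzx hh.symm,
      fun hh => h1x hh.symm, fun hh => hc hh.symm⟩

lemma Setup.s8 [Finite V] (h : Setup G x y v) {z0 : V} (h0x : ¬ G.Adj z0 x)
    (h0y : ¬ G.Adj z0 y) (h0v : ¬ G.Adj z0 v) : False := by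
  classical
  have := Fintype.ofFinite V
  -- every such vertex has a neighbour among the neighbours of `v`
  have hd : ∀ z, ¬ G.Adj z x → ¬ G.Adj z y → ¬ G.Adj z v →
      ∃ z1, G.Adj z1 v ∧ ¬ G.Adj z1 x ∧ ¬ G.Adj z1 y ∧ G.Adj z1 z := by
    intro z hzx hzy hzv
    have hne : v ≠ z := by
      rintro rfl
      exact hzx h.xv.symm
    obtain ⟨w, hwv, hwz⟩ := h.t1 v z hne (fun hh => hzv hh.symm)
    exact ⟨w, hwv, fun hh => h.s2 hzx hzy hzv hh hwv hwz.symm,
      fun hh => h.symm.s2 hzy hzx hzv hh hwv hwz.symm, hwz⟩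
  let Z : Finset V := univ.filter (fun z => ¬ G.Adj z x ∧ ¬ G.Adj z y ∧ ¬ G.Adj z v)
  let C : Finset V := univ.filter (fun z => G.Adj z v ∧ ¬ G.Adj z x ∧ ¬ G.Adj z y)
  have hZ : ∀ z, z ∈ Z ↔ ¬ G.Adj z x ∧ ¬ G.Adj z y ∧ ¬ G.Adj z v := by
    intro z
    simp [Z]
  have hC : ∀ z, z ∈ C ↔ G.Adj z v ∧ ¬ G.Adj z x ∧ ¬ G.Adj z y := by
    intro z
    simp [C]
  obtain ⟨c0, hc0v, hc0x, hc0y, hc0z⟩ := hd z0 h0x h0y h0v
  obtain ⟨z1, hz1, hmax⟩ := C.exists_max_image (fun c => (Z.filter (fun z => G.Adj c z)).card)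
    ⟨c0, (hC c0).2 ⟨hc0v, hc0x, hc0y⟩⟩
  have hpos : 0 < (Z.filter (fun z => G.Adj z1 z)).card :=
    lt_of_lt_of_le (Finset.card_pos.2 ⟨z0, Finset.mem_filter.2 ⟨(hZ z0).2 ⟨h0x, h0y, h0v⟩, hc0z⟩⟩)
      (hmax c0 ((hC c0).2 ⟨hc0v, hc0x, hc0y⟩))
  obtain ⟨zz, hzz⟩ := Finset.card_pos.1 hpos
  rw [Finset.mem_filter, hZ] at hzz
  obtain ⟨⟨hzzx, hzzy, hzzv⟩, hzz1⟩ := hzz
  obtain ⟨h1v, h1x, h1y⟩ := (hC z1).1 hz1
  obtain ⟨z', nz'v, nz'1, hz'v, hz'1⟩ := h.t2 v z1 h1v.symm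
  have hz'x : ¬ G.Adj z' x := fun hh =>
    hz'1 (h.s8e hzzx hzzy hzzv h1v h1x hzz1 hh hz'v nz'v).symm
  have hz'y : ¬ G.Adj z' y := fun hh =>
    hz'1 (h.symm.s8e hzzy hzzx hzzv h1v h1y hzz1 hh hz'v nz'v).symm
  obtain ⟨z1', h1'v, h1'x, h1'y, h1'z⟩ := hd z' hz'x hz'y hz'v
  obtain ⟨z, hzZ, hz1z, hz1'z⟩ : ∃ z ∈ Z, G.Adj z1 z ∧ ¬ G.Adj z1' z := by
    by_contra hcon
    push Not at hcon
    have hss : Z.filter (fun z => G.Adj z1 z) ⊂ Z.filter (fun z => G.Adj z1' z) := by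
      rw [Finset.ssubset_iff_of_subset]
      · exact ⟨z', Finset.mem_filter.2 ⟨(hZ z').2 ⟨hz'x, hz'y, hz'v⟩, h1'z⟩,
          fun hh => hz'1 (Finset.mem_filter.1 hh).2.symm⟩
      · intro s hs
        rw [Finset.mem_filter] at hs ⊢
        exact ⟨hs.1, hcon s hs.1 hs.2⟩
    exact absurd (Finset.card_lt_card hss)
      (not_lt.2 (hmax z1' ((hC z1').2 ⟨h1'v, h1'x, h1'y⟩)))
  obtain ⟨hzx, hzy, hzv⟩ := (hZ z).1 hzZ
  have hzz' : G.Adj z z' := by
    by_contra hc
    obtain ⟨p0, h0x', h0v', h0n', h0z'⟩ := h.s5 hzx hzy hzv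
    exact h.free.bull (a := z1) (b := p0) (c := z) (d := v) (e := z')
      ⟨h.s8e hzx hzy hzv h1v h1x hz1z h0x' h0v' h0n', h0z', hz1z.symm, h1v.symm,
        h.symm.s8c hz'y hz'x hz'v h0x' h0v' h0n', fun hh => h0v' hh.symm,
        fun hh => hzv hh.symm, hz'1, fun hh => hc hh.symm, fun hh => hz'v hh.symm⟩
  have h11 : G.Adj z1 z1' := by
    by_contra hc
    exact h.free.pent (a := v) (b := z1) (c := z) (d := z') (e := z1')
      ⟨h1v.symm, hz1z, hzz', h1'z.symm, h1'v, fun hh => hzv hh.symm, fun hh => hz'v hh.symm,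
        fun hh => hz'1 hh.symm, hc, fun hh => hz1'z hh.symm⟩
  exact h.free.bull (a := z1) (b := v) (c := z1') (d := z) (e := x)
    ⟨h1v, h1'v.symm, h11.symm, hz1z.symm, h.xv, hzv, fun hh => hz1'z hh.symm,
      fun hh => h1x hh.symm, fun hh => h1'x hh.symm, hzx⟩

lemma Setup.s8' [Finite V] (h : Setup G x y v) {z : V} (hzx : ¬ G.Adj z x)
    (hzv : ¬ G.Adj z v) : G.Adj z y := by
  by_contra hzy
  exact h.s8 hzx hzy hzv

lemma Setup.s13 [Finite V] (h : Setup G x y v) {p1 q1 : V} (h1x : G.Adj p1 x)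
    (h1v : G.Adj p1 v) (hqy : G.Adj q1 y) (hqv : G.Adj q1 v) : ¬ G.Adj p1 q1 := by
  intro hc
  obtain ⟨q0, n1, n2, n3, n4⟩ := h.t2 v p1 h1v.symm
  have hq0x : ¬ G.Adj q0 x := fun hh => n4 (h.s1 hh n3 n1 h1x h1v)
  have hq0y : G.Adj q0 y := h.s8' hq0x n3
  obtain ⟨p0, m1, m2, m3, m4⟩ := h.t2 v q1 hqv.symm
  have hp0y : ¬ G.Adj p0 y := fun hh => m4 (h.symm.s1 hh m3 m1 hqy hqv)
  have hp0x : G.Adj p0 x := h.symm.s8' hp0y m3
  exact h.free.bull (a := p1) (b := q1) (c := v) (d := p0) (e := q0)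
    ⟨hc, hqv, h1v.symm, h.s1 hp0x m3 m1 h1x h1v, h.symm.s1 hq0y n3 n1 hqy hqv, m4, m3, n4, n3,
      h.s3 hp0x m3 m1 hq0y n3 n1⟩

lemma Setup.s10 (h : Setup G x y v) {z p1 p0 : V} (hzv : G.Adj z v) (hzy : ¬ G.Adj z y)
    (h1x : G.Adj p1 x) (h1v : G.Adj p1 v) (hz1 : G.Adj z p1) (h0x : G.Adj p0 x)
    (h0v : ¬ G.Adj p0 v) (h0n : p0 ≠ v) : G.Adj z p0 := by
  by_contra hc
  exact h.free.bull (a := v) (b := p1) (c := z) (d := y) (e := p0)
    ⟨h1v.symm, hz1.symm, hzv, h.yv, h.s1 h0x h0v h0n h1x h1v, h.ny h1x h1v.ne,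
      fun hh => hzy hh.symm, h0v, fun hh => hc hh.symm, h.ny h0x h0n⟩

lemma Setup.f3 [Finite V] (h : Setup G x y v) {b q0 : V} (hbv : G.Adj b v)
    (hbx : ¬ G.Adj b x) (hb : ∀ p, G.Adj p x → G.Adj p v → ¬ G.Adj b p) (hqy : G.Adj q0 y)
    (hqv : ¬ G.Adj q0 v) (hqn : q0 ≠ v) : G.Adj b q0 := by
  by_cases hb1 : b = y
  · rw [hb1]
    exact hqy.symm
  by_cases hby : G.Adj b y
  · exact (h.symm.s1 hqy hqv hqn hby hbv).symm
  by_contra hc
  by_cases hbX : ∃ p0, G.Adj p0 x ∧ ¬ G.Adj p0 v ∧ p0 ≠ v ∧ G.Adj b p0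
  · obtain ⟨p0, h0x, h0v, h0n, h0b⟩ := hbX
    obtain ⟨p1, h1x, h1v, h1q⟩ := h.s4 hqy hqv hqn
    exact h.free.bull (a := p0) (b := p1) (c := x) (d := b) (e := q0)
      ⟨h.s1 h0x h0v h0n h1x h1v, h1x, h0x.symm, h0b, h1q.symm, hb p1 h1x h1v, hbx,
        fun hh => h.s3 h0x h0v h0n hqy hqv hqn hh.symm, fun hh => h.symm.ny hqy hqn hh.symm, hc⟩
  · push Not at hbX
    by_cases hbY : ∃ q1, G.Adj q1 y ∧ G.Adj q1 v ∧ G.Adj b q1
    · obtain ⟨q1, h1y, h1v, h1b⟩ := hbY
      exact hc (h.symm.s10 hbv hbx h1y h1v h1b hqy hqv hqn)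
    · push Not at hbY
      obtain ⟨p0, n1, n2, n3, n4⟩ := h.t2 v y h.yv.symm
      have h0x : G.Adj p0 x := h.symm.s8' n4 n3
      obtain ⟨q1, h1y, h1v, h1p⟩ := h.symm.s4 h0x n3 n1
      exact h.free.bull (a := q1) (b := v) (c := y) (d := p0) (e := b)
        ⟨h1v, h.yv.symm, h1y.symm, h1p.symm, hbv, n3, n4, hbY q1 h1y h1v, hby,
          fun hh => hbX p0 h0x n3 n1 hh.symm⟩

lemma Setup.f4 [Finite V] (h : Setup G x y v) {w b p1 : V} (hwv : G.Adj w v)
    (h1x : G.Adj p1 x) (h1v : G.Adj p1 v) (hw1 : G.Adj w p1)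
    (hbv : G.Adj b v) (hbx : ¬ G.Adj b x) (hb : ∀ p, G.Adj p x → G.Adj p v → ¬ G.Adj b p) :
    ¬ G.Adj w b := by
  intro hwb
  have hwy : ¬ G.Adj w y := fun hh => h.s13 h1x h1v hh hwv hw1.symm
  obtain ⟨t, n1, n2, n3, n4⟩ := h.t2 v w hwv.symm
  have htx : ¬ G.Adj t x := fun hh => n4 (h.s10 hwv hwy h1x h1v hw1 hh n3 n1).symm
  have hty : G.Adj t y := h.s8' htx n3
  obtain ⟨s, m1, m2, m3, m4⟩ := h.t2 v b hbv.symm
  have hsy : ¬ G.Adj s y := fun hh => m4 (h.f3 hbv hbx hb hh m3 m1).symm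
  have hsx : G.Adj s x := h.symm.s8' hsy m3
  exact h.free.bull (a := w) (b := b) (c := v) (d := s) (e := t)
    ⟨hwb, hbv, hwv.symm, (h.s10 hwv hwy h1x h1v hw1 hsx m3 m1).symm,
      (h.f3 hbv hbx hb hty n3 n1).symm, m4, m3, n4, n3, h.s3 hsx m3 m1 hty n3 n1⟩

lemma Setup.contra [Finite V] (h : Setup G x y v) : False := by
  classical
  have := Fintype.ofFinite V
  let A : Finset V := univ.filter (fun a => G.Adj a x ∧ ¬ G.Adj a v ∧ a ≠ v)
  let B : Finset V := univ.filter (fun b => G.Adj b v ∧ ¬ G.Adj b x ∧ b ≠ x ∧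
    ∀ p, G.Adj p x → G.Adj p v → ¬ G.Adj b p)
  have hA : ∀ a, a ∈ A ↔ G.Adj a x ∧ ¬ G.Adj a v ∧ a ≠ v := by
    intro a
    simp [A]
  have hB : ∀ b, b ∈ B ↔ G.Adj b v ∧ ¬ G.Adj b x ∧ b ≠ x ∧
      ∀ p, G.Adj p x → G.Adj p v → ¬ G.Adj b p := by
    intro b
    simp [B]
  have hcfg : Cfg G A B v x := by
    refine ⟨h.free, ?_, ?_, ?_, ?_, ?_, ?_, ?_, ?_, ?_, ?_⟩
    · intro b hb
      exact ((hB b).1 hb).1.symm
    · intro a ha hh
      exact ((hA a).1 ha).2.1 hh.symm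
    · intro hh
      exact ((hA v).1 hh).2.2 rfl
    · intro a ha
      exact ((hA a).1 ha).1.symm
    · intro b hb hh
      exact ((hB b).1 hb).2.1 hh.symm
    · intro hh
      exact ((hB x).1 hh).2.2.1 rfl
    · intro a ha b hb hab
      obtain ⟨hax, hav, han⟩ := (hA a).1 ha
      obtain ⟨hbv, hbx, hbn, hbp⟩ := (hB b).1 hb
      have hne : a ≠ b := by
        rintro rfl
        exact hav hbv
      obtain ⟨w, hwa, hwb⟩ := h.t1 a b hne hab
      refine ⟨w, ?_, hwa, hwb⟩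
      by_cases hwx : G.Adj w x
      · by_cases hwv : G.Adj w v
        · exact absurd hwb.symm (hbp w hwx hwv)
        · left
          refine (hA w).2 ⟨hwx, hwv, ?_⟩
          rintro rfl
          exact hav hwa.symm
      · right
        have hwn : w ≠ x := by
          rintro rfl
          exact hbx hwb.symm
        have hwv : G.Adj w v := by
          by_contra hwv
          have hwn' : w ≠ v := by
            rintro rfl
            exact hav hwa.symm
          exact h.s3 hax hav han (h.s8' hwx hwv) hwv hwn' hwa.symm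
        refine (hB w).2 ⟨hwv, hwx, hwn, ?_⟩
        intro p hpx hpv hwp
        exact h.f4 hwv hpx hpv hwp hbv hbx hbp hwb
    · intro a ha b hb hab
      obtain ⟨hax, hav, han⟩ := (hA a).1 ha
      obtain ⟨hbv, hbx, hbn, hbp⟩ := (hB b).1 hb
      obtain ⟨w, nwa, nwb, hwa, hwb⟩ := h.t2 a b hab
      refine ⟨w, ?_, nwa, nwb, hwa, hwb⟩
      have hwn' : w ≠ v := by
        rintro rfl
        exact hwb hbv.symm
      by_cases hwx : G.Adj w x
      · by_cases hwv : G.Adj w v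
        · exact absurd (h.s1 hax hav han hwx hwv).symm hwa
        · left
          exact (hA w).2 ⟨hwx, hwv, hwn'⟩
      · right
        have hwn : w ≠ x := by
          rintro rfl
          exact hwa hax.symm
        have hwv : G.Adj w v := by
          by_contra hwv
          exact hwb (h.f3 hbv hbx hbp (h.s8' hwx hwv) hwv hwn').symm
        refine (hB w).2 ⟨hwv, hwx, hwn, ?_⟩
        intro p hpx hpv hwp
        have hwy : ¬ G.Adj w y := fun hh => h.s13 hpx hpv hh hwv hwp.symm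
        exact hwa (h.s10 hwv hwy hpx hpv hwp hax hav han)
    · obtain ⟨w, n1, n2, n3, n4⟩ := h.t2 v y h.yv.symm
      exact ⟨w, (hA w).2 ⟨h.symm.s8' n4 n3, n3, n1⟩⟩
    · refine ⟨y, (hB y).2 ⟨h.yv, fun hh => h.xy hh.symm, h.ne.symm, ?_⟩⟩
      intro p hpx hpv hyp
      exact hpv.ne (h.uniq p hpx hyp.symm)
  exact hcfg.contra

end setup

/-! ### The theorem -/

/-- Any two non-adjacent vertices have a common neighbour and any two adjacent vertices have a
common non-neighbour. -/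
def TwoTwo (G : SimpleGraph V) : Prop :=
  (∀ u w, u ≠ w → ¬ G.Adj u w → ∃ z, G.Adj z u ∧ G.Adj z w) ∧
    ∀ u w, G.Adj u w → ∃ z, z ≠ u ∧ z ≠ w ∧ ¬ G.Adj z u ∧ ¬ G.Adj z w

lemma TwoTwo.compl {G : SimpleGraph V} (h : TwoTwo G) : TwoTwo Gᶜ := by
  constructor
  · intro u w huw hadj
    have h1 : G.Adj u w := by
      by_contra hc
      exact hadj ((SimpleGraph.compl_adj _ _ _).2 ⟨huw, hc⟩)
    obtain ⟨z, z1, z2, z3, z4⟩ := h.2 u w h1
    exact ⟨z, (SimpleGraph.compl_adj _ _ _).2 ⟨z1, z3⟩, (SimpleGraph.compl_adj _ _ _).2 ⟨z2, z4⟩⟩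
  · intro u w huw
    obtain ⟨h1, h2⟩ := (SimpleGraph.compl_adj _ _ _).1 huw
    obtain ⟨z, z1, z2⟩ := h.1 u w h1 h2
    exact ⟨z, z1.ne, z2.ne, fun hh => ((SimpleGraph.compl_adj _ _ _).1 hh).2 z1,
      fun hh => ((SimpleGraph.compl_adj _ _ _).1 hh).2 z2⟩

lemma Free.induce {G : SimpleGraph V} (h : Free G) (s : Set V) : Free (G.induce s) := by
  constructor
  · intro a b c d e hh
    exact h.pent (a := a.1) (b := b.1) (c := c.1) (d := d.1) (e := e.1) hh
  · intro a b c d e hh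
    exact h.bull (a := a.1) (b := b.1) (c := c.1) (d := d.1) (e := e.1) hh

/-- A pair with a unique common neighbour is impossible. -/
lemma no_unique [Finite V] {G : SimpleGraph V} (hG : Free G) (h : TwoTwo G) {x y v : V}
    (hne : x ≠ y) (hxy : ¬ G.Adj x y) (huniq : ∀ w, G.Adj w x → G.Adj w y → w = v) : False := by
  obtain ⟨z, hz1, hz2⟩ := h.1 x y hne hxy
  have hz : z = v := huniq z hz1 hz2
  subst hz
  exact Setup.contra ⟨hG, h.1, h.2, hz1.symm, hz2.symm, hne, hxy, huniq⟩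

lemma not_free_of_twoTwo : ∀ (n : ℕ) (V : Type) [Fintype V] (G : SimpleGraph V),
    Fintype.card V = n → 2 ≤ n → TwoTwo G → ¬ Free G := by
  classical
  intro n
  induction n using Nat.strong_induction_on with
  | _ n ih =>
    intro V _ G hcard hn h hG
    -- there are at least three vertices
    have h3 : 3 ≤ n := by
      obtain ⟨u, w, huw⟩ := Fintype.exists_pair_of_one_lt_card (α := V) (by omega)
      have : ∃ z, z ≠ u ∧ z ≠ w := by
        by_cases hadj : G.Adj u w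
        · obtain ⟨z, h1, h2, -, -⟩ := h.2 u w hadj
          exact ⟨z, h1, h2⟩
        · obtain ⟨z, h1, h2⟩ := h.1 u w huw hadj
          exact ⟨z, h1.ne, h2.ne⟩
      obtain ⟨z, hzu, hzw⟩ := this
      rw [← hcard]
      have : ({u, w, z} : Finset V).card = 3 := by
        rw [Finset.card_eq_three]
        exact ⟨u, w, z, huw, hzu.symm, hzw.symm, rfl⟩
      rw [← this]
      exact Finset.card_le_univ _
    obtain ⟨v⟩ : Nonempty V := Fintype.card_pos_iff.1 (by omega)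
    by_cases htt : TwoTwo (G.induce {w | w ≠ v})
    · have hc : Fintype.card {w // w ≠ v} = n - 1 := by
        rw [Fintype.card_subtype_compl, hcard]
        simp
      exact ih (n - 1) (by omega) _ (G.induce {w | w ≠ v}) (by convert hc) (by omega) htt
        (hG.induce _)
    · rw [TwoTwo, not_and_or] at htt
      rcases htt with htt | htt
      · push Not at htt
        obtain ⟨⟨u, hu⟩, ⟨w, hw⟩, huw, hadj, hno⟩ := htt
        refine no_unique hG h (x := u) (y := w) (v := v) (fun hh => huw (by simp [hh])) hadj ?_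
        intro z hz1 hz2
        by_contra hzv
        exact hno ⟨z, hzv⟩ hz1 hz2
      · push Not at htt
        obtain ⟨⟨u, hu⟩, ⟨w, hw⟩, hadj, hno⟩ := htt
        have hadj' : G.Adj u w := hadj
        refine no_unique hG.compl h.compl (x := u) (y := w) (v := v) hadj'.ne
          (fun hh => ((SimpleGraph.compl_adj _ _ _).1 hh).2 hadj') ?_
        intro z hz1 hz2
        rw [SimpleGraph.compl_adj] at hz1 hz2
        by_contra hzv
        exact hz2.2 (hno ⟨z, hzv⟩ (fun hh => hz1.1 (congrArg Subtype.val hh))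
          (fun hh => hz2.1 (congrArg Subtype.val hh)) hz1.2)

/-- From five vertices to the induced subgraph. -/
lemma hasFive_of_map {G : SimpleGraph V} {H : SimpleGraph (Fin 5)} (f : Fin 5 → V)
    (hf : Function.Injective f) (hadj : ∀ i j, G.Adj (f i) (f j) ↔ H.Adj i j) :
    ∃ S : Finset V, S.card = 5 ∧ Nonempty (G.induce (S : Set V) ≃g H) := by
  refine ⟨Finset.univ.map ⟨f, hf⟩, by simp, ⟨?_⟩⟩
  have hS : ((Finset.univ.map ⟨f, hf⟩ : Finset V) : Set V) = Set.range f := by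
    ext z
    simp
  refine RelIso.symm ⟨(Equiv.ofInjective f hf).trans (Equiv.setCongr hS.symm), ?_⟩
  intro i j
  exact hadj i j

lemma hasFive_of_not_free {G : SimpleGraph V} (h : ¬ Free G) : HasFive G := by
  have h' : (∃ a b c d e, Pent G a b c d e) ∨ ∃ a b c d e, Bull G a b c d e := by
    by_contra hc
    push Not at hc
    exact h ⟨fun {a b c d e} => hc.1 a b c d e, fun {a b c d e} => hc.2 a b c d e⟩
  rcases h' with ⟨a, b, c, d, e, h1, h2, h3, h4, h5, n1, n2, n3, n4, n5⟩ |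
    ⟨a, b, c, d, e, h1, h2, h3, h4, h5, n1, n2, n3, n4, n5⟩
  · have m1 : ¬ G.Adj c a := fun hh => n1 hh.symm
    have m2 : ¬ G.Adj d a := fun hh => n2 hh.symm
    have m3 : ¬ G.Adj d b := fun hh => n3 hh.symm
    have m4 : ¬ G.Adj e b := fun hh => n4 hh.symm
    have m5 : ¬ G.Adj e c := fun hh => n5 hh.symm
    have ac : a ≠ c := by rintro rfl; exact n2 h3
    have ad : a ≠ d := by rintro rfl; exact n1 h3.symm
    have bd : b ≠ d := by rintro rfl; exact n2 h1
    have be : b ≠ e := by rintro rfl; exact n3 h4.symm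
    have ce : c ≠ e := by rintro rfl; exact n1 h5.symm
    have ab := h1.ne
    have bc := h2.ne
    have cd := h3.ne
    have de := h4.ne
    have ea := h5.ne
    have hf : Function.Injective ![a, b, c, d, e] := by
      intro i j hij
      fin_cases i <;> fin_cases j <;> simp_all
    obtain ⟨S, hS, hiso⟩ := hasFive_of_map (G := G) (H := SimpleGraph.cycleGraph 5)
      ![a, b, c, d, e] hf (by
        intro i j
        fin_cases i <;> fin_cases j <;>
          simp [SimpleGraph.cycleGraph_adj, h1, h2, h3, h4, h5, n1, n2, n3, n4, n5, h1.symm,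
            h2.symm, h3.symm, h4.symm, h5.symm, m1, m2, m3, m4, m5] <;> decide)
    exact ⟨S, hS, Or.inl hiso⟩
  · have m1 : ¬ G.Adj b d := fun hh => n1 hh.symm
    have m2 : ¬ G.Adj c d := fun hh => n2 hh.symm
    have m3 : ¬ G.Adj a e := fun hh => n3 hh.symm
    have m4 : ¬ G.Adj c e := fun hh => n4 hh.symm
    have m5 : ¬ G.Adj e d := fun hh => n5 hh.symm
    have db : d ≠ b := by rintro rfl; exact n2 h2
    have dc : d ≠ c := by rintro rfl; exact n1 h2.symm
    have ea : e ≠ a := by rintro rfl; exact n4 h3.symm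
    have ec : e ≠ c := by rintro rfl; exact n3 h3
    have de : d ≠ e := by rintro rfl; exact n1 h5
    have ab := h1.ne
    have bc := h2.ne
    have ca := h3.ne
    have da := h4.ne
    have eb := h5.ne
    have hf : Function.Injective ![a, b, c, d, e] := by
      intro i j hij
      fin_cases i <;> fin_cases j <;> simp_all
    obtain ⟨S, hS, hiso⟩ := hasFive_of_map (G := G) (H := bull)
      ![a, b, c, d, e] hf (by
        intro i j
        fin_cases i <;> fin_cases j <;>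
          simp [bull, h1, h2, h3, h4, h5, n1, n2, n3, n4, n5, h1.symm,
            h2.symm, h3.symm, h4.symm, h5.symm, m1, m2, m3, m4, m5])
    exact ⟨S, hS, Or.inr hiso⟩

/-- A regular graph of degree `k` with `2 k + 1` vertices has the property. -/
lemma twoTwo_of_regular [Fintype V] {G : SimpleGraph V} [DecidableRel G.Adj] {k : ℕ}
    (hcard : Fintype.card V = 2 * k + 1) (hreg : G.IsRegularOfDegree k) : TwoTwo G := by
  classical
  constructor
  · intro u w huw hadj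
    by_contra hcon
    push Not at hcon
    have hdisj : Disjoint (G.neighborFinset u) (G.neighborFinset w) := by
      rw [Finset.disjoint_left]
      intro z hz1 hz2
      rw [SimpleGraph.mem_neighborFinset] at hz1 hz2
      exact hcon z hz1.symm hz2.symm
    have hsub : G.neighborFinset u ∪ G.neighborFinset w ⊆ Finset.univ \ {u, w} := by
      intro z hz
      rw [Finset.mem_union, SimpleGraph.mem_neighborFinset, SimpleGraph.mem_neighborFinset] at hz
      rw [Finset.mem_sdiff, Finset.mem_insert, Finset.mem_singleton]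
      refine ⟨Finset.mem_univ z, ?_⟩
      rintro (rfl | rfl)
      · rcases hz with hz | hz
        · exact G.loopless.irrefl _ hz
        · exact hadj hz.symm
      · rcases hz with hz | hz
        · exact hadj hz
        · exact G.loopless.irrefl _ hz
    have h1 := Finset.card_le_card hsub
    rw [Finset.card_union_of_disjoint hdisj, Finset.card_sdiff_of_subset (Finset.subset_univ _),
      Finset.card_pair huw, Finset.card_univ, hcard, SimpleGraph.card_neighborFinset_eq_degree,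
      SimpleGraph.card_neighborFinset_eq_degree, hreg u, hreg w] at h1
    have h2 : 1 < Fintype.card V := Fintype.one_lt_card_iff.2 ⟨u, w, huw⟩
    omega
  · intro u w hadj
    by_contra hcon
    push Not at hcon
    have hsub : (Finset.univ : Finset V) ⊆ G.neighborFinset u ∪ G.neighborFinset w := by
      intro z _
      rw [Finset.mem_union, SimpleGraph.mem_neighborFinset, SimpleGraph.mem_neighborFinset]
      by_cases hzu : z = u
      · right
        rw [hzu]
        exact hadj.symm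
      by_cases hzw : z = w
      · left
        rw [hzw]
        exact hadj
      by_cases hz : G.Adj z u
      · exact Or.inl hz.symm
      · exact Or.inr (hcon z hzu hzw hz).symm
    have h1 := Finset.card_le_card hsub
    have h2 := Finset.card_union_le (G.neighborFinset u) (G.neighborFinset w)
    rw [Finset.card_univ, hcard] at h1
    rw [SimpleGraph.card_neighborFinset_eq_degree, SimpleGraph.card_neighborFinset_eq_degree,
      hreg u, hreg w] at h2
    omega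

/-- (1) For every positive integer `k`, every `k`-regular graph with `2 k + 1` vertices has five
vertices which induce a pentagon or a bull.  (2) More generally this holds for every finite graph
with at least two vertices in which any two non-adjacent vertices have a common neighbour and any
two adjacent vertices have a common non-neighbour. -/
theorem result :
    (∀ (k : ℕ) (V : Type) [Fintype V] (G : SimpleGraph V) [DecidableRel G.Adj], 0 < k →
      Fintype.card V = 2 * k + 1 → G.IsRegularOfDegree k → HasFive G) ∧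
    ∀ (V : Type) [Fintype V] (G : SimpleGraph V), 2 ≤ Fintype.card V →
      (∀ u w, u ≠ w → ¬ G.Adj u w → ∃ z, G.Adj z u ∧ G.Adj z w) →
      (∀ u w, G.Adj u w → ∃ z, z ≠ u ∧ z ≠ w ∧ ¬ G.Adj z u ∧ ¬ G.Adj z w) → HasFive G := by
  constructor
  · intro k V _ G _ hk hcard hreg
    exact hasFive_of_not_free
      (not_free_of_twoTwo _ V G rfl (by omega) (twoTwo_of_regular hcard hreg))
  · intro V _ G hcard h1 h2
    exact hasFive_of_not_free (not_free_of_twoTwo _ V G rfl hcard ⟨h1, h2⟩)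

end Pool.Agent.Results.MP_aa43e9_co.BullOrPentagon
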